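import Pool.Agent.helper88.HT.Spec

/-!
# Project HT, row PCR
-/

set_option autoImplicit false

namespace Pool.Agent.helper88.HT

open Pool.Agent.helper38.Neg Pool.Agent.helper55.NT

theorem PCR (h1 : UP_stmt) : PCR_stmt := by
  intro b k l c hk A hA
  obtain ⟨p, hp⟩ := hA
  refine ⟨((c : Polynomial ℕ) * (Polynomial.X + 2) * (Polynomial.X + 3) + 1) *
    (4 * (Polynomial.X + 2) ^ c) * (2 * Polynomial.X + 2) ^ l *
      (6 * Polynomial.X ^ 2 + p + 6), ?_⟩
  intro n
  obtain ⟨s, hs, C, o, hC⟩ := hp n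
  obtain ⟨s', hs', C', o', hval, hb, hb'⟩ := h1 b n s (k n) l C o
  refine ⟨s', hs'.trans ?_, C', o', ?_, hb, hb'⟩
  · have hlg : lg n ≤ n + 2 := by
      unfold lg
      exact Nat.log_le_self 2 (n + 2)
    have hlg2 : 2 ^ lg n ≤ n + 2 := by
      unfold lg
      exact Nat.pow_log_le_self 2 (by omega)
    have hkn : k n ≤ c * (n + 2) := (hk n).trans (Nat.mul_le_mul_left c hlg)
    have h2k : 2 ^ (k n + 2) ≤ 4 * (n + 2) ^ c := by
      calc 2 ^ (k n + 2) = 4 * 2 ^ (k n) := by rw [pow_add]; ring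
        _ ≤ 4 * 2 ^ (c * lg n) := by
            apply Nat.mul_le_mul_left
            exact Nat.pow_le_pow_right (by norm_num) (hk n)
        _ = 4 * (2 ^ lg n) ^ c := by rw [mul_comm c, pow_mul]
        _ ≤ 4 * (n + 2) ^ c := by
            apply Nat.mul_le_mul_left
            exact Nat.pow_le_pow_left hlg2 c
    have hfirst : k n * (lg n + 1) + 1 ≤ c * (n + 2) * (n + 3) + 1 := by
      apply Nat.add_le_add_right
      exact Nat.mul_le_mul hkn (by omega)
    show _ ≤ Polynomial.eval n _
    simp only [Polynomial.eval_mul, Polynomial.eval_add, Polynomial.eval_pow, Polynomial.eval_X,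
      Polynomial.eval_natCast, Polynomial.eval_ofNat, Polynomial.eval_one]
    apply Nat.mul_le_mul
    · apply Nat.mul_le_mul
      · exact Nat.mul_le_mul hfirst h2k
      · exact le_rfl
    · omega
  · intro x
    rw [hval x]
    exact hC x

end Pool.Agent.helper88.HT
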