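import Pool.Agent.helper88.HT.Spec

/-!
# Project HT, row FMX
-/

set_option autoImplicit false

namespace Pool.Agent.helper88.HT

open Pool.Agent.helper38.Neg Pool.Agent.helper55.NT

theorem FMX (h1 : PHX_stmt) (h2 : PH0_stmt) : FMX_stmt := by
  classical
  intro n s k t C o Hs ht hS
  refine ⟨?_, ?_⟩
  · intro x
    have h3 : ∀ j, PHI C o (Hs j) x (fun i => !(x i)) = C.val x o := fun j => h1 n s k C o (Hs j) x
    unfold FAM
    show decide (∀ j, PHI C o (Hs j) x (fun i => !(x i)) = true) = C.val x o
    cases hv : C.val x o with
    | true =>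
      rw [decide_eq_true_iff]
      intro j
      rw [h3 j, hv]
    | false =>
      rw [decide_eq_false_iff_not]
      intro hall
      have h4 := hall ⟨0, ht⟩
      rw [h3, hv] at h4
      exact absurd h4 (by decide)
  · intro p q hpq hcard hy
    obtain ⟨j, hj⟩ := hS _ hcard
    have h3 := h2 n s k C o (Hs j) p q hpq (by
      have he : (Finset.univ.filter fun i => p i = true ∧ q i = true) =
          (Finset.univ.filter fun i => p i = true ∧ q i = true) := rfl
      exact hj) hy
    unfold FAM
    rw [decide_eq_false_iff_not]
    intro hall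
    have h4 := hall j
    rw [h3] at h4
    exact absurd h4 (by decide)

end Pool.Agent.helper88.HT
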